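import Mathlib

set_option autoImplicit false

namespace Pool.Agent.Results.MP_0a00ee_co.InducedC8

open SimpleGraph

/-- chordal: no induced cycle with at least four vertices -/
def Chordal {V : Type} (G : SimpleGraph V) : Prop :=
  ∀ k : ℕ, 4 ≤ k → IsEmpty (cycleGraph k ↪g G)

/-- `K`, `K'` are distinct, intersect, and every path from `K \ K'` to `K' \ K` meets `K ∩ K'` -/
def SepPair {V : Type} (G : SimpleGraph V) (K K' : Set V) : Prop :=
  K ≠ K' ∧ (K ∩ K').Nonempty ∧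
    ∀ u ∈ K \ K', ∀ v ∈ K' \ K, ∀ p : G.Walk u v, p.IsPath → ∃ w ∈ p.support, w ∈ K ∩ K'

theorem SepPair.symm {V : Type} {G : SimpleGraph V} {K K' : Set V} (h : SepPair G K K') :
    SepPair G K' K := by
  refine ⟨h.1.symm, by rw [Set.inter_comm]; exact h.2.1, ?_⟩
  intro u hu v hv p hp
  obtain ⟨w, hw, hw'⟩ := h.2.2 v hv u hu p.reverse hp.reverse
  exact ⟨w, by simpa using hw, by rw [Set.inter_comm]; exact hw'⟩

/-- the reduced clique graph: vertices are the maximal cliques, edges the separating pairs -/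
def reducedCliqueGraph {V : Type} (G : SimpleGraph V) :
    SimpleGraph {K : Set V // Maximal G.IsClique K} where
  Adj K K' := SepPair G K.1 K'.1
  symm := ⟨fun _ _ h => h.symm⟩
  loopless := ⟨fun _ h => h.1 rfl⟩

/-- the eight cliques; core vertices `0,1,2,3`, sun vertices `4..7`, pendant vertices `8..11` -/
def cl : Fin 8 → Finset (Fin 12) :=
  ![{3, 0, 4}, {0, 8}, {0, 1, 5}, {1, 9}, {1, 2, 6}, {2, 10}, {2, 3, 7}, {3, 11}]

def adjB (u v : Fin 12) : Prop := u ≠ v ∧ ((u < 4 ∧ v < 4) ∨ ∃ i, u ∈ cl i ∧ v ∈ cl i)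

instance : DecidableRel adjB := fun u v => by unfold adjB; infer_instance

def G : SimpleGraph (Fin 12) where
  Adj := adjB
  symm := ⟨by decide⟩
  loopless := ⟨by decide⟩

instance : DecidableRel G.Adj := fun u v => inferInstanceAs (Decidable (adjB u v))

theorem chordal : Chordal G := by
  intro k hk
  obtain ⟨m, rfl⟩ : ∃ m, k = m + 4 := ⟨k - 4, by omega⟩
  refine ⟨fun f => ?_⟩
  have simp1 : ∀ v a b : Fin 12, ¬ v < 4 → G.Adj v a → G.Adj v b → a ≠ b → G.Adj a b := by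
    decide +kernel
  have core : ∀ a b : Fin 12, a < 4 → b < 4 → a ≠ b → G.Adj a b := by decide
  have two : ∀ i : Fin (m + 4), ¬ (cycleGraph (m + 4)).Adj (i - 1) (i + 1) ∧ i - 1 ≠ i + 1 ∧
      (cycleGraph (m + 4)).Adj i (i - 1) ∧ (cycleGraph (m + 4)).Adj i (i + 1) := by
    intro i
    have h2 : (i + 1) - (i - 1) = (2 : Fin (m + 4)) := by
      have : (2 : Fin (m + 4)) = 1 + 1 := by
        apply Fin.ext
        simp [Fin.val_add, Nat.mod_eq_of_lt]
      rw [this]; abel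
    have h3 : (i - 1) - (i + 1) = -(2 : Fin (m + 4)) := by rw [← h2]; abel
    have v2 : ((2 : Fin (m + 4)) : ℕ) = 2 := by simp [Nat.mod_eq_of_lt]
    have v1 : ((1 : Fin (m + 4)) : ℕ) = 1 := by simp
    have n1 : (2 : Fin (m + 4)) ≠ 1 := by
      intro h; have := congrArg Fin.val h; omega
    have n0 : (2 : Fin (m + 4)) ≠ 0 := by
      intro h; have := congrArg Fin.val h; rw [v2] at this; simp at this
    have n2 : -(2 : Fin (m + 4)) ≠ 1 := by
      intro h
      have := congrArg Fin.val h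
      rw [Fin.val_neg', v2, v1, Nat.mod_eq_of_lt (by omega)] at this
      omega
    refine ⟨?_, ?_, ?_, ?_⟩
    · rw [cycleGraph_adj, h2, h3]
      tauto
    · intro h
      rw [h, sub_self] at h2
      exact n0 h2.symm
    · rw [cycleGraph_adj]; left; abel
    · rw [cycleGraph_adj]; right; abel
  have all : ∀ i, f i < 4 := by
    intro i
    by_contra hi
    obtain ⟨h1, h2, h3, h4⟩ := two i
    exact h1 (f.map_adj_iff.mp (simp1 _ _ _ hi (f.map_adj_iff.mpr h3) (f.map_adj_iff.mpr h4)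
      (f.injective.ne h2)))
  obtain ⟨h1, h2, -, -⟩ := two 0
  exact h1 (f.map_adj_iff.mp (core _ _ (all _) (all _) (f.injective.ne h2)))

theorem maxcl (i : Fin 8) : Maximal G.IsClique (cl i : Set (Fin 12)) := by
  have h1 : ∀ i, ∀ a ∈ cl i, ∀ b ∈ cl i, a ≠ b → G.Adj a b := by decide +kernel
  have h2 : ∀ i, ∀ x, x ∉ cl i → ∃ a ∈ cl i, ¬ G.Adj a x := by decide +kernel
  refine ⟨fun a ha b hb hab => h1 i a ha b hb hab, ?_⟩
  intro T hT hsub x hx
  by_contra hxi
  obtain ⟨a, ha, hax⟩ := h2 i x hxi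
  exact hax (hT (hsub ha) hx (by rintro rfl; exact hxi ha))

def Pend (i j : Fin 8) (c : Fin 12) : Prop :=
  ∀ u ∈ cl i, u ∉ cl j → u ∉ cl j ∧ ∀ w, G.Adj u w → w = c

instance (i j : Fin 8) (c : Fin 12) : Decidable (Pend i j c) := by unfold Pend; infer_instance

theorem pend (i j : Fin 8) (hij : cl i ≠ cl j) (c : Fin 12) (hc : c ∈ cl i ∧ c ∈ cl j)
    (hp : Pend i j c) :
    SepPair G (cl i) (cl j) := by
  refine ⟨fun h => hij (Finset.coe_injective h), ⟨c, hc.1, hc.2⟩, ?_⟩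
  intro u hu v hv p _
  cases p with
  | nil => exact absurd hu.1 hv.2
  | cons h q =>
    have := (hp u hu.1 hu.2).2 _ h
    subst this
    exact ⟨_, by simp, hc.1, hc.2⟩

theorem nonsep (i j : Fin 8)
    (h : (∀ x, x ∈ cl i → x ∉ cl j) ∨
      ∃ u ∈ cl i, u ∉ cl j ∧ ∃ v ∈ cl j, v ∉ cl i ∧ G.Adj u v) : ¬ SepPair G (cl i) (cl j) := by
  intro hs
  rcases h with h | ⟨u, hu, hu', v, hv, hv', huv⟩
  · obtain ⟨x, hx, hx'⟩ := hs.2.1
    exact h x hx hx'
  · obtain ⟨w, hw, hw1, hw2⟩ := hs.2.2 u ⟨hu, hu'⟩ v ⟨hv, hv'⟩ (Walk.cons huv Walk.nil)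
      (by simp [huv.ne])
    simp at hw
    rcases hw with rfl | rfl
    · exact hu' hw2
    · exact hv' hw1

theorem sep_iff (i j : Fin 8) : SepPair G (cl i) (cl j) ↔ (cycleGraph 8).Adj i j := by
  have k1 : ∀ i j : Fin 8, (cycleGraph 8).Adj i j → cl i ≠ cl j ∧ ∃ c, (c ∈ cl i ∧ c ∈ cl j) ∧
      (Pend i j c ∨ Pend j i c) := by decide +kernel
  have k2 : ∀ i j : Fin 8, ¬ (cycleGraph 8).Adj i j → i = j ∨ (∀ x, x ∈ cl i → x ∉ cl j) ∨
      ∃ u ∈ cl i, u ∉ cl j ∧ ∃ v ∈ cl j, v ∉ cl i ∧ G.Adj u v := by decide +kernel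
  constructor
  · intro h
    by_contra hn
    rcases k2 i j hn with rfl | h'
    · exact h.1 rfl
    · exact nonsep i j h' h
  · intro h
    obtain ⟨hne, c, hc, h1 | h1⟩ := k1 i j h
    · exact pend i j hne c hc h1
    · exact (pend j i hne.symm c hc.symm h1).symm

/-- There is a chordal graph whose reduced clique graph contains an induced cycle with eight
vertices. -/
theorem result :
    ∃ (V : Type) (_ : Fintype V) (G : SimpleGraph V), Chordal G ∧
      ∃ k : ℕ, 7 ≤ k ∧ Nonempty (cycleGraph k ↪g reducedCliqueGraph G) := by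
  refine ⟨Fin 12, inferInstance, G, chordal, 8, by norm_num, ⟨⟨⟨fun i => ⟨cl i, maxcl i⟩, ?_⟩, ?_⟩⟩⟩
  · intro i j h
    have h' : cl i = cl j := Finset.coe_injective (congrArg Subtype.val h)
    revert i j
    intro i j _ h'
    have : ∀ i j, cl i = cl j → i = j := by decide +kernel
    exact this i j h'
  · intro i j
    exact sep_iff i j

end Pool.Agent.Results.MP_0a00ee_co.InducedC8
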